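import Mathlib

/-!
# Counting with stabilisers (module for helper22)
-/

set_option autoImplicit false

namespace Pool.Agent.Zk85.NG

open Finset

/-- orbit-stabiliser for the fibres of a map -/
lemma card_fib {G X : Type} [Group G] [Finite G] (φ : G → X)
    (h : ∀ g u v : G, φ u = φ v → φ (g * u) = φ (g * v)) (H : Subgroup G)
    (hH : ∀ g, g ∈ H ↔ φ g = φ 1) :
    Nat.card G = Nat.card H * Nat.card (Set.range φ) := by
  have key : ∀ u v : G, φ u = φ v ↔ u⁻¹ * v ∈ H := by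
    intro u v
    rw [hH]
    constructor
    · intro e
      have := h u⁻¹ u v e
      rw [inv_mul_cancel] at this
      exact this.symm
    · intro e
      have := h u _ _ e
      rw [mul_inv_cancel_left, mul_one] at this
      exact this.symm
  have e : G ⧸ H ≃ Set.range φ := by
    refine Equiv.ofBijective (Quotient.lift (fun u : G => (⟨φ u, u, rfl⟩ : Set.range φ)) ?_) ⟨?_, ?_⟩
    · intro u v huv
      have : u⁻¹ * v ∈ H := QuotientGroup.leftRel_apply.1 huv
      exact Subtype.ext ((key u v).2 this)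
    · intro x y
      refine Quotient.inductionOn₂ x y fun u v huv => ?_
      have : φ u = φ v := congrArg Subtype.val huv
      exact Quotient.sound (QuotientGroup.leftRel_apply.2 ((key u v).1 this))
    · rintro ⟨_, u, rfl⟩
      exact ⟨Quotient.mk _ u, rfl⟩
  rw [← Nat.card_congr e]
  exact (Subgroup.card_mul_index H).symm

theorem app (A : Finset (ℤ × ℤ)) (a : ℤ × ℤ) (ha : a ∈ A) (S : Finset ℚ) {G : Type} [Group G] [Finite G]
    (f : G → ℤ × ℤ) (hf : ∀ b, b ∈ A ↔ ∃ g, f g = b)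
    (hr : ∀ r ∈ S, ∀ g u v : G, ((f u).1 : ℚ) + r * (f u).2 = (f v).1 + r * (f v).2 →
      ((f (g * u)).1 : ℚ) + r * (f (g * u)).2 = (f (g * v)).1 + r * (f (g * v)).2)
    (hp : ∀ g u v : G, f u = f v → f (g * u) = f (g * v)) (E : ℕ) (H : ℚ → Subgroup G) (K : Subgroup G)
    (hH : ∀ r ∈ S, ∀ g, g ∈ H r ↔ ((f g).1 : ℚ) + r * (f g).2 = (f 1).1 + r * (f 1).2)
    (hKdef : ∀ g, g ∈ K ↔ f g = f 1)
    (hc : (∏ s ∈ S, Nat.card (H s)) * Nat.card K ^ E ≤ Nat.card G ^ E * Nat.card K ^ S.card) :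
    (A.card) ^ S.card ≤ A.card ^ E *
      ∏ r ∈ S, (A.image fun p : ℤ × ℤ => (p.1 : ℚ) + r * (p.2 : ℚ)).card := by
  have hA : Nat.card G = Nat.card K * A.card := by
    rw [card_fib f hp K hKdef]
    congr 1
    have : Set.range f = (A : Set (ℤ × ℤ)) := by
      ext b
      simp [hf]
    rw [this, Nat.card_coe_set_eq, Set.ncard_coe_finset]
  have hS : ∀ r ∈ S, Nat.card G = Nat.card (H r) *
      (A.image fun p : ℤ × ℤ => (p.1 : ℚ) + r * (p.2 : ℚ)).card := by
    intro r hrS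
    rw [card_fib (fun g => ((f g).1 : ℚ) + r * (f g).2) (hr r hrS) (H r) (hH r hrS)]
    congr 1
    have : Set.range (fun g => ((f g).1 : ℚ) + r * (f g).2) =
        ((A.image fun p : ℤ × ℤ => (p.1 : ℚ) + r * (p.2 : ℚ) : Finset ℚ) : Set ℚ) := by
      ext b
      simp only [Set.mem_range, coe_image, Set.mem_image, mem_coe]
      constructor
      · rintro ⟨g, rfl⟩
        exact ⟨f g, (hf _).2 ⟨g, rfl⟩, rfl⟩
      · rintro ⟨x, hx, rfl⟩
        obtain ⟨g, rfl⟩ := (hf x).1 hx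
        exact ⟨g, rfl⟩
    rw [this, Nat.card_coe_set_eq, Set.ncard_coe_finset]
  have hK : 0 < Nat.card K := Nat.card_pos
  have h1 : Nat.card G ^ S.card = (∏ s ∈ S, Nat.card (H s)) *
      ∏ r ∈ S, (A.image fun p : ℤ × ℤ => (p.1 : ℚ) + r * (p.2 : ℚ)).card := by
    rw [← Finset.prod_mul_distrib, ← Finset.prod_const]
    exact Finset.prod_congr rfl fun r hrS => hS r hrS
  set P : ℕ := ∏ r ∈ S, (A.image fun p : ℤ × ℤ => (p.1 : ℚ) + r * (p.2 : ℚ)).card
  have h2 : (Nat.card K ^ S.card * Nat.card K ^ E) * A.card ^ S.card ≤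
      (Nat.card K ^ S.card * Nat.card K ^ E) * (A.card ^ E * P) := by
    calc (Nat.card K ^ S.card * Nat.card K ^ E) * A.card ^ S.card
        = Nat.card G ^ S.card * Nat.card K ^ E := by rw [hA, mul_pow]; ring
      _ = (∏ s ∈ S, Nat.card (H s)) * Nat.card K ^ E * P := by rw [h1]; ring
      _ ≤ Nat.card G ^ E * Nat.card K ^ S.card * P := Nat.mul_le_mul_right _ hc
      _ = (Nat.card K ^ S.card * Nat.card K ^ E) * (A.card ^ E * P) := by rw [hA, mul_pow]; ring
  exact Nat.le_of_mul_le_mul_left h2 (by positivity)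

end Pool.Agent.Zk85.NG
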